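import Pool.Agent.Y716.C.Defs
import Pool.Agent.Y716.Q.Parts

/-!
# Lower bound for the test set of a class of systems
-/

namespace Pool.Agent.Y665.C

open Pool.Agent.Y716.Q Pool.Agent.Y716.C

section
variable {ι : Type*} [Fintype ι] {s : ℕ}

omit [Fintype ι] in
/-- vectors of the box have the right size -/
theorem sz_of_inBoxS {P : ℝ} {ξ : ι → ℝ} {a : Fin s → ι} {ρ ρ' : ℝ} {x : ι → ℤ} (hP : 0 < P)
    (hρ : 0 ≤ ρ) (hρρ' : ρ ≤ ρ') (hρ' : ρ' ≤ 1 / 2) (hξ : ∀ i, |ξ i| ≤ 1) (hξr : ∃ r, ξ r = 1)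
    (hx : InBoxS P ξ a ρ ρ' (fun i => (x i : ℝ))) : Sz (2 * P) x := by
  have hwd : ∀ i, 0 ≤ wdS a ρ ρ' i ∧ wdS a ρ ρ' i ≤ 1 / 2 := by
    intro i
    unfold wdS
    split_ifs
    · exact ⟨hρ.trans hρρ', hρ'⟩
    · exact ⟨hρ, hρρ'.trans hρ'⟩
  constructor
  · intro i
    have h1 := abs_le.mp (hx i)
    have h2 := hwd i
    have h3 := abs_le.mp (hξ i)
    have h4 : P * wdS a ρ ρ' i ≤ P * (1 / 2) := mul_le_mul_of_nonneg_left h2.2 hP.le
    have h5 : P * ξ i ≤ P * 1 := mul_le_mul_of_nonneg_left h3.2 hP.le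
    have h6 : P * (-1) ≤ P * ξ i := mul_le_mul_of_nonneg_left h3.1 hP.le
    rw [abs_le]
    constructor
    · linarith [h1.1]
    · linarith [h1.2]
  · obtain ⟨r, hr⟩ := hξr
    refine ⟨r, ?_⟩
    have h1 := (abs_le.mp (hx r)).1
    have h2 := hwd r
    have h4 : P * wdS a ρ ρ' r ≤ P * (1 / 2) := mul_le_mul_of_nonneg_left h2.2 hP.le
    rw [hr] at h1
    refine le_trans ?_ (le_abs_self _)
    linarith

theorem eval_congr {M : ℤ} (f : MvPolynomial ι ℤ) {x y : ι → ℤ} (h : ∀ i, M ∣ x i - y i) :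
    M ∣ MvPolynomial.eval x f - MvPolynomial.eval y f := by
  choose z hz using h
  obtain ⟨q, hq⟩ := Pool.Agent.Y67.HP.taylor' f y z M
  have h3 : (fun i => y i + M * z i) = x := by
    funext i
    linarith [hz i]
  rw [h3] at hq
  rw [hq]
  refine ⟨∑ i, z i * MvPolynomial.eval y (MvPolynomial.pderiv i f) + M * q, ?_⟩
  ring

/-- values of `fc j` at the points `xc + S z` -/
theorem class_eval_dvd {w : ℕ} {fc : Fin s → MvPolynomial ι ℤ} {S J : ℕ} {xc : ι → ℤ}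
    (h : PDataS w fc S J xc) {z : ι → ℤ} (hz : ∀ j, (J : ℤ) ∣ ∑ i, jac fc xc j i * z i)
    (j : Fin s) : ((S * J : ℕ) : ℤ) ∣
      MvPolynomial.eval (fun i => xc i + (S : ℤ) * z i) (fc j) := by
  obtain ⟨q, hq⟩ := Pool.Agent.Y67.HP.taylor' (fc j) xc z (S : ℤ)
  rw [hq]
  obtain ⟨c, hc⟩ := h.hJS
  obtain ⟨u, hu⟩ := hz j
  have h5 : ∑ i, z i * MvPolynomial.eval xc (MvPolynomial.pderiv i (fc j)) = J * u := by
    rw [← hu]
    refine Finset.sum_congr rfl (fun i _ => ?_)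
    unfold jac
    ring
  rw [h5]
  refine dvd_add (dvd_add (h.hval j) ?_) ?_
  · refine ⟨u, ?_⟩
    push_cast; ring
  · refine ⟨c * q, ?_⟩
    have h6 : (S : ℤ) = J * c := by exact_mod_cast hc
    push_cast
    calc (S : ℤ) ^ 2 * q = S * S * q := by ring
      _ = S * (J * c) * q := by rw [← h6]
      _ = _ := by ring

/-- the members of the class have the same values modulo `S J` on the box -/
theorem memS_dvd {P : ℝ} {ξ : ι → ℝ} {a : Fin s → ι} {ρ ρ' : ℝ} {S J : ℕ} {xc x : ι → ℤ}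
    {fc : Fin s → MvPolynomial ι ℤ} (hx : x ∈ boxS P ξ a ρ ρ' S J xc fc)
    (g : Fin s → MvPolynomial ι ℤ) (j : Fin s) :
    ((S * J : ℕ) : ℤ) ∣ MvPolynomial.eval x (memS fc S J g j) := by
  unfold memS mem'
  rw [map_add, map_mul, MvPolynomial.eval_C]
  exact dvd_add ((mem_boxS.mp hx).2.2 j) (dvd_mul_right _ _)

open scoped Classical in
/-- lower bound for the number of vectors of the box at which the system is small -/
theorem slab_lower {w : ℕ} {fc g : Fin s → MvPolynomial ι ℤ} {S J : ℕ} {xc : ι → ℤ}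
    (h : PDataS w fc S J xc) {V τ M₀ : ℝ} {Δ : Fin s → ℝ} {P : ℝ} {ξ : ι → ℝ} {a : Fin s → ι}
    {ρ ρ' : ℝ} (hslab : SlabCount V τ M₀ Δ P ξ a ρ ρ' (memS fc S J g))
    (hM : ((S * J : ℕ) : ℝ) ≤ M₀) :
    (1 - τ) * (nuJ fc J xc * V / ((S * J : ℕ) : ℝ) ^ Fintype.card ι) ≤
      (((boxS P ξ a ρ ρ' S J xc fc).filter (fun x =>
        ∀ j, |((MvPolynomial.eval x (memS fc S J g j) : ℤ) : ℝ)| ≤ Δ j)).card : ℝ) := by
  set Z := ((Fintype.piFinset (fun _ : ι => Finset.range J)).filter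
    (fun z : ι → ℕ => ∀ j, (J : ℤ) ∣ ∑ i, jac fc xc j i * (z i : ℤ))) with hZ
  have hnu : nuJ fc J xc = Z.card := by
    unfold nuJ
    rw [hZ]
  set X : (ι → ℕ) → Finset (ι → ℤ) := fun z => (boxS P ξ a ρ ρ' S J xc fc).filter (fun x =>
    (∀ i, ((S * J : ℕ) : ℤ) ∣ x i - (xc i + (S : ℤ) * (z i : ℤ))) ∧
      ∀ j, |((MvPolynomial.eval x (memS fc S J g j) : ℤ) : ℝ)| ≤ Δ j) with hX
  have hSJ : 1 ≤ S * J := Nat.mul_pos h.hS h.hJ
  have hS0 : (S : ℤ) ≠ 0 := by exact_mod_cast h.hS.ne'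
  have hcount : ∀ z ∈ Z, (1 - τ) * (V / ((S * J : ℕ) : ℝ) ^ Fintype.card ι) ≤
      ((X z).card : ℝ) := by
    intro z hz
    rw [hZ, Finset.mem_filter] at hz
    refine (hslab (S * J) hSJ hM (fun i => xc i + (S : ℤ) * (z i : ℤ)) (X z) ?_).1
    intro x
    rw [hX]
    simp only [Finset.mem_filter]
    constructor
    · rintro ⟨h1, h2, h3⟩
      exact ⟨h2, (mem_boxS.mp h1).1, h3⟩
    · rintro ⟨h1, h2, h3⟩
      refine ⟨mem_boxS.mpr ⟨h2, ?_, ?_⟩, h1, h3⟩
      · intro i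
        have h4 : (S : ℤ) ∣ ((S * J : ℕ) : ℤ) := by
          push_cast
          exact dvd_mul_right _ _
        have h5 := h4.trans (h1 i)
        have h6 : x i - xc i = (x i - (xc i + (S : ℤ) * (z i : ℤ))) + (S : ℤ) * (z i : ℤ) := by
          ring
        rw [h6]
        exact dvd_add h5 (dvd_mul_right _ _)
      · intro j
        have h4 := eval_congr (fc j) (x := x) (y := fun i => xc i + (S : ℤ) * (z i : ℤ)) h1
        have h5 := class_eval_dvd h (z := fun i => (z i : ℤ)) hz.2 j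
        have h6 := dvd_add h4 h5
        rw [sub_add_cancel] at h6
        exact h6
  have hdisj : ∀ z ∈ Z, ∀ z' ∈ Z, z ≠ z' → Disjoint (X z) (X z') := by
    intro z hz z' hz' hne
    rw [Finset.disjoint_left]
    intro x hx hx'
    apply hne
    rw [hX] at hx hx'
    simp only [Finset.mem_filter] at hx hx'
    rw [hZ, Finset.mem_filter, Fintype.mem_piFinset] at hz hz'
    funext i
    have h1 := dvd_sub (hx'.2.1 i) (hx.2.1 i)
    have h2 : x i - (xc i + (S : ℤ) * (z' i : ℤ)) - (x i - (xc i + (S : ℤ) * (z i : ℤ))) =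
        (S : ℤ) * ((z i : ℤ) - (z' i : ℤ)) := by ring
    rw [h2] at h1
    push_cast at h1
    have h3 : (J : ℤ) ∣ (z i : ℤ) - (z' i : ℤ) := (mul_dvd_mul_iff_left hS0).mp h1
    have h4 := Finset.mem_range.mp (hz.1 i)
    have h5 := Finset.mem_range.mp (hz'.1 i)
    have h6 : (z i : ℤ) - (z' i : ℤ) = 0 := by
      apply Int.eq_zero_of_abs_lt_dvd h3
      rw [abs_lt]
      constructor <;> omega
    omega
  have hsub : Z.biUnion X ⊆ (boxS P ξ a ρ ρ' S J xc fc).filter (fun x =>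
        ∀ j, |((MvPolynomial.eval x (memS fc S J g j) : ℤ) : ℝ)| ≤ Δ j) := by
    intro x hx
    rw [Finset.mem_biUnion] at hx
    obtain ⟨z, _, hz⟩ := hx
    rw [hX] at hz
    simp only [Finset.mem_filter] at hz
    rw [Finset.mem_filter]
    exact ⟨hz.1, hz.2.2⟩
  have h1 := Finset.card_le_card hsub
  rw [Finset.card_biUnion hdisj] at h1
  have h2 : ((∑ z ∈ Z, (X z).card : ℕ) : ℝ) ≤ (((boxS P ξ a ρ ρ' S J xc fc).filter (fun x =>
        ∀ j, |((MvPolynomial.eval x (memS fc S J g j) : ℤ) : ℝ)| ≤ Δ j)).card : ℝ) := by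
    exact_mod_cast h1
  refine le_trans ?_ h2
  push_cast
  refine le_trans ?_ (Finset.sum_le_sum hcount)
  rw [Finset.sum_const, nsmul_eq_mul, hnu]
  apply le_of_eq
  push_cast
  ring

open scoped Classical in
/-- few imprimitive vectors of the box are such that the system is small -/
theorem nonprim_upper (hk : 2 ≤ Fintype.card ι) (hloc : LocUpper ι s) {w : ℕ} (hw : 1 ≤ w)
    {fc g : Fin s → MvPolynomial ι ℤ} {S J : ℕ} {xc : ι → ℤ}
    (h : PDataS w fc S J xc) {V τ M₀ : ℝ} {Δ : Fin s → ℝ} {P : ℝ} {ξ : ι → ℝ} {a : Fin s → ι}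
    {ρ ρ' : ℝ} (hV : 0 ≤ V) (hP : 0 < P) (hρ : 0 ≤ ρ) (hρρ' : ρ ≤ ρ') (hρ' : ρ' ≤ 1 / 2)
    (hξ : ∀ i, |ξ i| ≤ 1) (hξr : ∃ r, ξ r = 1) (hτ : 0 ≤ τ)
    (hslab : SlabCount V τ M₀ Δ P ξ a ρ ρ' (memS fc S J g)) (N : ℕ) (hN : 1 ≤ N)
    (hNM : ((S * J * N : ℕ) : ℝ) ≤ M₀) :
    (((boxS P ξ a ρ ρ' S J xc fc).filter (fun x => ¬ Prim x ∧
        ∀ j, |((MvPolynomial.eval x (memS fc S J g j) : ℤ) : ℝ)| ≤ Δ j)).card : ℝ) ≤
      (1 + τ) * (nuJ fc J xc * V / ((S * J : ℕ) : ℝ) ^ Fintype.card ι) * (1 / w) +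
        (6 * P) ^ Fintype.card ι / N := by
  set f := memS fc S J g with hfdef
  set R := (nuJ fc J xc * V / ((S * J : ℕ) : ℝ) ^ Fintype.card ι) with hR
  have hR0 : 0 ≤ R := by rw [hR]; positivity
  have hsz : ∀ x ∈ boxS P ξ a ρ ρ' S J xc fc, Sz (2 * P) x := fun x hx =>
    sz_of_inBoxS hP hρ hρρ' hρ' hξ hξr (mem_boxS.mp hx).1
  set B' := ⌊2 * P⌋₊ with hB'
  have hcov : (boxS P ξ a ρ ρ' S J xc fc).filter (fun x => ¬ Prim x ∧
      ∀ j, |((MvPolynomial.eval x (f j) : ℤ) : ℝ)| ≤ Δ j) ⊆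
      (((Finset.Ioc w N).filter Nat.Prime).biUnion
        (fun p => locSetS P ξ a ρ ρ' S J xc fc f 1 p 0 Δ)) ∪
      ((Finset.Ioc N B').biUnion (fun p => (boxS P ξ a ρ ρ' S J xc fc).filter
        (fun x => ∀ i, (p : ℤ) ∣ x i))) := by
    intro x hx
    rw [Finset.mem_filter] at hx
    obtain ⟨hxb, hnp, hxf⟩ := hx
    unfold Prim at hnp
    push Not at hnp
    obtain ⟨D, hD, hDu⟩ := hnp
    have hDn : D.natAbs ≠ 1 := fun h1 => hDu (Int.isUnit_iff_natAbs_eq.mpr h1)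
    obtain ⟨p, hp, hpD⟩ := Nat.exists_prime_and_dvd hDn
    have hpx : ∀ i, (p : ℤ) ∣ x i := fun i =>
      (Int.natCast_dvd.mpr hpD).trans (hD i)
    have hpw : w < p := by
      by_contra hle
      have hle' := not_lt.mp hle
      obtain ⟨i, hi⟩ := h.hprim p hp hle'
      apply hi
      have h1 : (p : ℤ) ∣ S := by
        have := (dvd_mul_right p J).trans (h.hPJ p hp hle')
        exact_mod_cast this
      have h2 := h1.trans ((mem_boxS.mp hxb).2.1 i)
      have := dvd_sub (hpx i) h2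
      simpa using this
    obtain ⟨hx1, r, hr⟩ := hsz x hxb
    have hpB : p ≤ B' := by
      rw [hB']
      apply Nat.le_floor
      have hxr0 : x r ≠ 0 := by
        intro h0
        rw [h0] at hr
        simp only [Int.cast_zero, abs_zero] at hr
        linarith
      have h1 : (p : ℤ) ≤ |x r| := by
        have := Int.le_of_dvd (abs_pos.mpr hxr0) ((dvd_abs _ _).mpr (hpx r))
        exact this
      have h2 : (p : ℝ) ≤ |(x r : ℝ)| := by exact_mod_cast h1
      exact h2.trans (hx1 r)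
    rw [Finset.mem_union, Finset.mem_biUnion, Finset.mem_biUnion]
    by_cases hpN : p ≤ N
    · left
      refine ⟨p, ?_, ?_⟩
      · rw [Finset.mem_filter, Finset.mem_Ioc]
        exact ⟨⟨hpw, hpN⟩, hp⟩
      · unfold locSetS
        rw [Finset.mem_filter]
        refine ⟨hxb, fun i => by simpa using hpx i, fun j => ⟨?_, hxf j⟩⟩
        rw [mul_one]
        exact memS_dvd hxb g j
    · right
      refine ⟨p, ?_, ?_⟩
      · rw [Finset.mem_Ioc]; exact ⟨not_le.mp hpN, hpB⟩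
      · rw [Finset.mem_filter]; exact ⟨hxb, hpx⟩
  have h1 := (Finset.card_le_card hcov).trans (Finset.card_union_le _ _)
  have h2 : (((boxS P ξ a ρ ρ' S J xc fc).filter (fun x => ¬ Prim x ∧
      ∀ j, |((MvPolynomial.eval x (f j) : ℤ) : ℝ)| ≤ Δ j)).card : ℝ) ≤
      ((((Finset.Ioc w N).filter Nat.Prime).biUnion
        (fun p => locSetS P ξ a ρ ρ' S J xc fc f 1 p 0 Δ)).card : ℝ) +
      (((Finset.Ioc N B').biUnion (fun p => (boxS P ξ a ρ ρ' S J xc fc).filter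
        (fun x => ∀ i, (p : ℤ) ∣ x i))).card : ℝ) := by exact_mod_cast h1
  refine h2.trans (add_le_add ?_ ?_)
  · have h3 : ((((Finset.Ioc w N).filter Nat.Prime).biUnion
        (fun p => locSetS P ξ a ρ ρ' S J xc fc f 1 p 0 Δ)).card : ℝ) ≤
        ∑ p ∈ (Finset.Ioc w N).filter Nat.Prime,
          ((locSetS P ξ a ρ ρ' S J xc fc f 1 p 0 Δ).card : ℝ) := by
      exact_mod_cast Finset.card_biUnion_le
    refine h3.trans ?_
    have h4 : ∀ p ∈ (Finset.Ioc w N).filter Nat.Prime,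
        ((locSetS P ξ a ρ ρ' S J xc fc f 1 p 0 Δ).card : ℝ) ≤
          (1 + τ) * R * (1 / (p : ℝ) ^ 2) := by
      intro p hp
      rw [Finset.mem_filter, Finset.mem_Ioc] at hp
      obtain ⟨⟨hp1, hp2⟩, hp3⟩ := hp
      have hp1r : (1:ℝ) ≤ p := by exact_mod_cast hp3.one_lt.le
      have hle : ((S * J * 1 * p : ℕ) : ℝ) ≤ M₀ := by
        refine le_trans ?_ hNM
        have : S * J * 1 * p ≤ S * J * N := by
          rw [mul_one]
          exact Nat.mul_le_mul_left _ hp2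
        exact_mod_cast this
      have key := hloc w fc g S J xc h V τ M₀ Δ P ξ a ρ ρ' hV hτ hslab 0 1 (pow_zero _).symm p
        hp3.pos (by
          intro q hq hqw hqp
          have := (Nat.prime_dvd_prime_iff_eq hq hp3).mp hqp
          omega) hle 0
      refine key.trans ?_
      rw [Nat.cast_one, one_pow, one_mul, div_eq_mul_one_div]
      apply mul_le_mul_of_nonneg_left _ (by positivity)
      apply one_div_le_one_div_of_le (by positivity)
      exact pow_le_pow_right₀ hp1r hk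
    refine (Finset.sum_le_sum h4).trans ?_
    rw [← Finset.mul_sum]
    have h5 : ∑ p ∈ (Finset.Ioc w N).filter Nat.Prime, (1 : ℝ) / (p : ℝ) ^ 2 ≤ 1 / w := by
      refine le_trans ?_ (sum_inv_sq w N hw)
      exact Finset.sum_le_sum_of_subset_of_nonneg (Finset.filter_subset _ _)
        (fun _ _ _ => by positivity)
    exact mul_le_mul_of_nonneg_left h5 (by positivity)
  · have h3 : (((Finset.Ioc N B').biUnion (fun p => (boxS P ξ a ρ ρ' S J xc fc).filter
        (fun x => ∀ i, (p : ℤ) ∣ x i))).card : ℝ) ≤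
        ∑ p ∈ Finset.Ioc N B', (((boxS P ξ a ρ ρ' S J xc fc).filter
        (fun x => ∀ i, (p : ℤ) ∣ x i)).card : ℝ) := by
      exact_mod_cast Finset.card_biUnion_le
    refine h3.trans ?_
    have h4 : ∀ p ∈ Finset.Ioc N B', (((boxS P ξ a ρ ρ' S J xc fc).filter
        (fun x => ∀ i, (p : ℤ) ∣ x i)).card : ℝ) ≤
        (6 * P) ^ Fintype.card ι * (1 / (p : ℝ) ^ 2) := by
      intro p hp
      rw [Finset.mem_Ioc] at hp
      have hp0 : 0 < p := by omega
      have hp1 : (1:ℝ) ≤ p := by exact_mod_cast hp0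
      have hpB : (p : ℝ) ≤ 2 * P := by
        have h5 : (p : ℝ) ≤ B' := by exact_mod_cast hp.2
        exact h5.trans (Nat.floor_le (by positivity))
      have := div_count (B := 2 * P) (by positivity) p hp0 hpB
        ((boxS P ξ a ρ ρ' S J xc fc).filter (fun x => ∀ i, (p : ℤ) ∣ x i)) (fun x hx => by
          rw [Finset.mem_filter] at hx
          exact ⟨(hsz x hx.1).1, hx.2⟩)
      refine this.trans ?_
      rw [show 3 * (2 * P) / (p:ℝ) = (6 * P) * (1 / p) by ring, mul_pow]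
      apply mul_le_mul_of_nonneg_left _ (by positivity)
      rw [div_pow, one_pow]
      apply one_div_le_one_div_of_le (by positivity)
      exact pow_le_pow_right₀ hp1 hk
    refine (Finset.sum_le_sum h4).trans ?_
    rw [← Finset.mul_sum]
    have := mul_le_mul_of_nonneg_left (sum_inv_sq N B' hN)
      (by positivity : 0 ≤ (6 * P) ^ Fintype.card ι)
    refine this.trans (le_of_eq ?_)
    ring

end

/-- `p`-adic part, lower bound for the test set -/
theorem test_lower (ι : Type*) [Fintype ι] (s : ℕ) (hk : 2 ≤ Fintype.card ι)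
    (_hs : s ≤ Fintype.card ι) (hloc : Pool.Agent.Y716.C.LocUpper ι s) :
    Pool.Agent.Y716.C.TestLower ι s := by
  classical
  intro w fc g S J xc hw h V τ M₀ Δ P ξ a ρ ρ' a₀ hV hP hρ hρρ' hρ' hξ hξr hτ hτ1 hwτ hslab N hN
    hNM hN6 hU
  set f := memS fc S J g with hfdef
  set R := (nuJ fc J xc * V / ((S * J : ℕ) : ℝ) ^ Fintype.card ι) with hR
  have hR0 : 0 ≤ R := by rw [hR]; positivity
  have hM : ((S * J : ℕ) : ℝ) ≤ M₀ := by
    refine le_trans ?_ hNM
    have : S * J ≤ S * J * N := Nat.le_mul_of_pos_right _ hN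
    exact_mod_cast this
  have hlow := slab_lower h hslab hM
  have hnp := nonprim_upper hk hloc hw h hV hP hρ.le hρρ' hρ' hξ hξr hτ.le hslab N hN hNM
  have hub := hU ((boxS P ξ a ρ ρ' S J xc fc).filter (fun x => Prim x ∧ ¬ Bal (2 * P) a₀ x)) (by
    intro x hx
    rw [Finset.mem_filter] at hx
    exact ⟨sz_of_inBoxS hP hρ.le hρρ' hρ' hξ hξr (mem_boxS.mp hx.1).1, hx.2.1, hx.2.2⟩)
  have hcov : (boxS P ξ a ρ ρ' S J xc fc).filter (fun x =>
        ∀ j, |((MvPolynomial.eval x (f j) : ℤ) : ℝ)| ≤ Δ j) ⊆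
      ((testSetS (2 * P) a₀ P ξ a ρ ρ' S J xc fc).filter (fun x =>
        ∀ j, |((MvPolynomial.eval x (f j) : ℤ) : ℝ)| ≤ Δ j)) ∪
      ((boxS P ξ a ρ ρ' S J xc fc).filter (fun x => ¬ Prim x ∧
        ∀ j, |((MvPolynomial.eval x (f j) : ℤ) : ℝ)| ≤ Δ j)) ∪
      ((boxS P ξ a ρ ρ' S J xc fc).filter (fun x => Prim x ∧ ¬ Bal (2 * P) a₀ x)) := by
    intro x hx
    rw [Finset.mem_filter] at hx
    rw [Finset.mem_union, Finset.mem_union, Finset.mem_filter, Finset.mem_filter,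
      Finset.mem_filter, mem_testSetS]
    have hsz := sz_of_inBoxS hP hρ.le hρρ' hρ' hξ hξr (mem_boxS.mp hx.1).1
    by_cases hp : Prim x
    · by_cases hb : Bal (2 * P) a₀ x
      · left; left; exact ⟨⟨hx.1, hsz, hp, hb⟩, hx.2⟩
      · right; exact ⟨hx.1, hp, hb⟩
    · left; right; exact ⟨hx.1, hp, hx.2⟩
  have hc := (Finset.card_le_card hcov).trans ((Finset.card_union_le _ _).trans
    (Nat.add_le_add_right (Finset.card_union_le _ _) _))
  have hc' : (((boxS P ξ a ρ ρ' S J xc fc).filter (fun x =>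
        ∀ j, |((MvPolynomial.eval x (f j) : ℤ) : ℝ)| ≤ Δ j)).card : ℝ) ≤
      (((testSetS (2 * P) a₀ P ξ a ρ ρ' S J xc fc).filter (fun x =>
        ∀ j, |((MvPolynomial.eval x (f j) : ℤ) : ℝ)| ≤ Δ j)).card : ℝ) +
      (((boxS P ξ a ρ ρ' S J xc fc).filter (fun x => ¬ Prim x ∧
        ∀ j, |((MvPolynomial.eval x (f j) : ℤ) : ℝ)| ≤ Δ j)).card : ℝ) +
      (((boxS P ξ a ρ ρ' S J xc fc).filter (fun x => Prim x ∧
        ¬ Bal (2 * P) a₀ x)).card : ℝ) := by
    exact_mod_cast hc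
  have h6 : (1 + τ) * R * (1 / w) ≤ (1 + τ) * R * τ :=
    mul_le_mul_of_nonneg_left hwτ (by positivity)
  have h7 : ((1 - τ) - (1 + τ) * τ - 2 * τ) * R =
      (1 - τ) * R - (1 + τ) * R * τ - 2 * (τ * R) := by ring
  rw [h7]
  linarith

end Pool.Agent.Y665.C
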